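import Mathlib
import Pool.Agent.Q254.SternReal

/-!
# Rational roots of Stern polynomials (MP_32086b_nt, Q1: the assertion is true)

For `t = -m(1-m)` with `0 < m ≤ 1/2` (every `t ∈ [-1/4, 0)` has this form) the quadratic form
`q(a,b) = (a + m b)(m a + b)` is nonnegative at all pairs `(B n t, B (n+1) t)`:
`q(t a, a+b) = m(1-m) q(a,b) + m(1-m+m²)(m a + b)²` and symmetrically for `(a+b, t b)`.
As `q(a,-a) = -(1-m)² a² < 0`, the sum `a + b = B (2n+1) t` never vanishes. Hence no Stern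
polynomial has a real zero in `[-1/4, 0)`; a nonzero rational zero is `-1/q` with `q` an integer.
-/

set_option autoImplicit false

open Polynomial Q254SternReal

namespace Pool.Agent.Results.MP_32086b_nt.RationalRoots

/-- The defining recursion of the Stern polynomials: `B 0 = 0`, `B 1 = 1` and, for `n ≥ 1`,
`B (2n) = t B n`, `B (2n+1) = B n + B (n+1)`. -/
def IsStern (B : ℕ → ℤ[X]) : Prop :=
  B 0 = 0 ∧ B 1 = 1 ∧ (∀ n ≥ 1, B (2 * n) = X * B n) ∧ ∀ n ≥ 1, B (2 * n + 1) = B n + B (n + 1)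

/-- The set of rational zeros of the Stern polynomials `B n`, `n ≥ 1`, is exactly
`{-1, -1/2, -1/3, 0}`; and no `B n` with `n ≥ 1` has a real zero in `[-1/4, 0)`. -/
theorem result :
    (∃ B : ℕ → ℤ[X], IsStern B) ∧
    ∀ B : ℕ → ℤ[X], IsStern B →
      {a : ℚ | ∃ n : ℕ, 1 ≤ n ∧ aeval a (B n) = 0} = {-1, -(1 / 2), -(1 / 3), 0} ∧
      (∀ n : ℕ, 1 ≤ n → ∀ t : ℝ, -(1 / 4) ≤ t → t < 0 → aeval t (B n) ≠ 0) := by
  refine ⟨⟨_, Q254Stern.isStern_stern⟩, fun B hB => ⟨?_, fun n hn t h1 h2 =>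
    no_real_zero hB h1 h2 n hn⟩⟩
  ext a
  simp only [Set.mem_ofPred_eq, Set.mem_insert_iff, Set.mem_singleton_iff]
  constructor
  · rintro ⟨n, hn, ha⟩
    exact all_case hB n hn ha
  · obtain ⟨r0, r1, r2, r3⟩ := roots_occur hB
    rintro (rfl | rfl | rfl | rfl)
    · exact ⟨3, by norm_num, r1⟩
    · exact ⟨5, by norm_num, r2⟩
    · exact ⟨21, by norm_num, r3⟩
    · exact ⟨2, by norm_num, r0⟩

end Pool.Agent.Results.MP_32086b_nt.RationalRoots
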